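import Pool.Agent.Helper35_XQ.Stmt

/-!
Squad XQ (MP_5b0138_an), Part A2, module GI_BAD (helper20): masses of long loops.
-/

set_option autoImplicit false

namespace Pool.Agent.XQ.GI.H20

open MeasureTheory Complex Filter Topology Pool.Agent.H62T Pool.Agent.H60K Pool.Agent.XQ.GI
open scoped ENNReal NNReal

theorem norm_uI (α : ℝ) (s : Fin 3) : ‖uI α s‖ = 1 := by
  have h : ‖uI α s‖ ^ 2 = 1 := by
    rw [← Complex.normSq_eq_norm_sq, Complex.normSq_apply]
    unfold uI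
    split_ifs
    · simp; nlinarith [Real.sin_sq_add_cos_sq α]
    · simp
    · simp; nlinarith [Real.sin_sq_add_cos_sq α]
  have h2 : 0 ≤ ‖uI α s‖ := norm_nonneg _
  nlinarith

theorem absorb1 (C0 A m t : ℝ) (p : ℕ) (hmA : m < A) (ht : 0 < t) :
    C0 * (1 + t) ^ p / t * Real.exp (-(A / (4 * t)))
      ≤ (|C0| * (4 / (A - m))) * (1 + t) ^ p * Real.exp (-(m / (4 * t))) := by
  have hp : 0 < (1 + t) ^ p := by positivity
  have hd : 0 < A - m := by linarith
  set x := (A - m) / (4 * t) with hx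
  have hx0 : 0 < x := by positivity
  have h1 : Real.exp (-x) ≤ 1 / x := by
    rw [Real.exp_neg, ← one_div]
    apply one_div_le_one_div_of_le hx0
    linarith [Real.add_one_le_exp x]
  have h2 : Real.exp (-(A / (4 * t))) = Real.exp (-x) * Real.exp (-(m / (4 * t))) := by
    rw [← Real.exp_add]
    congr 1
    rw [hx]
    field_simp
    ring
  have h3 : 1 / x = t * (4 / (A - m)) := by
    rw [hx]
    field_simp
  rw [h2]
  have h4 : C0 * (1 + t) ^ p / t * Real.exp (-x) ≤ (|C0| * (4 / (A - m))) * (1 + t) ^ p := by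
    calc C0 * (1 + t) ^ p / t * Real.exp (-x)
        ≤ |C0| * (1 + t) ^ p / t * Real.exp (-x) := by
          gcongr
          exact le_abs_self C0
      _ ≤ |C0| * (1 + t) ^ p / t * (1 / x) := by
          gcongr
      _ = (|C0| * (4 / (A - m))) * (1 + t) ^ p := by
          rw [h3]
          field_simp
  calc C0 * (1 + t) ^ p / t * (Real.exp (-x) * Real.exp (-(m / (4 * t))))
      = C0 * (1 + t) ^ p / t * Real.exp (-x) * Real.exp (-(m / (4 * t))) := by ring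
    _ ≤ _ := by gcongr

theorem ms_bound (hldm : LdmStatement) (u : Fin 3 → ℂ) (h : Fin 3 → ℝ) (hu : ∀ s, ‖u s‖ = 1)
    (n : ℕ) [NeZero n] (S : (Fin n → ℂ) → (Fin n → Finset (Fin 3)) → Prop) (δ l R m : ℝ)
    (hS : ∀ A, MeasurableSet {x | S x A}) (hδ : 0 < δ) (hR : 0 < R) (hm : 0 ≤ m) (hml : m < l)
    (hn : l ^ 2 ≤ δ ^ 2 * n)
    (h1 : ∀ x A, S x A → Cns u h x A → Sho u h δ x A → l ≤ Ln u h x A)
    (h2 : ∀ x A, S x A → Cns u h x A → ‖x 0‖ ≤ R * (1 + Ln u h x A)) :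
    ∃ (C : ℝ) (p : ℕ), 0 ≤ C ∧ ∀ t : ℝ, 0 < t → Ms u h (fun _ => t / n) S
      ≤ ENNReal.ofReal (C * (1 + t) ^ p * Real.exp (-(m ^ 2 / (4 * t)))) := by
  have hl : 0 < l := lt_of_le_of_lt hm hml
  have hml2 : m ^ 2 < l ^ 2 := by nlinarith
  have hε : 0 < (l ^ 2 - m ^ 2) / (2 * l ^ 2) := by
    have : 0 < l ^ 2 - m ^ 2 := by linarith
    positivity
  obtain ⟨C0, p, hC⟩ := (hldm u h hu n S δ l R ((l ^ 2 - m ^ 2) / (2 * l ^ 2)) hS hδ hl hR hε).1 h1 h2
  have hA : (1 - (l ^ 2 - m ^ 2) / (2 * l ^ 2)) * l ^ 2 = (l ^ 2 + m ^ 2) / 2 := by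
    field_simp
    ring
  rw [hA] at hC
  refine ⟨|C0| * (4 / ((l ^ 2 + m ^ 2) / 2 - m ^ 2)), p, ?_, fun t ht => ?_⟩
  · have : 0 < (l ^ 2 + m ^ 2) / 2 - m ^ 2 := by linarith
    positivity
  have hn0 : (0 : ℝ) < n := by exact_mod_cast Nat.pos_of_ne_zero (NeZero.ne n)
  have hsum : ∑ _i : Fin n, t / (n : ℝ) = t := by
    rw [Finset.sum_const, Finset.card_univ, Fintype.card_fin, nsmul_eq_mul]
    field_simp
  have h3 := hC (fun _ => t / n) (fun _ => by positivity) (fun _ => by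
    rw [hsum]
    rw [div_mul_eq_mul_div, div_le_iff₀ hn0]
    nlinarith)
  rw [hsum] at h3
  refine le_trans h3 (ENNReal.ofReal_le_ofReal ?_)
  exact absorb1 C0 ((l ^ 2 + m ^ 2) / 2) (m ^ 2) t p (by linarith) ht

theorem meas_Ad {n : ℕ} [NeZero n] (B : Fin n → Finset (Fin 3)) :
    MeasurableSet {x : Fin n → ℂ | Ad x B} := by
  have hm : ∀ j : Fin n, Measurable (fun x : Fin n → ℂ => (x j).re) := fun j => by fun_prop
  have h1 : ∀ j : Fin n, MeasurableSet {x : Fin n → ℂ | (x j).re < 0} := fun j =>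
    measurableSet_lt (hm j) measurable_const
  have h2 : ∀ j : Fin n, MeasurableSet {x : Fin n → ℂ | 0 ≤ (x j).re} := fun j =>
    measurableSet_le measurable_const (hm j)
  have e : {x : Fin n → ℂ | Ad x B}
      = (⋂ j, ⋂ (_ : 0 ∈ B j), ({x : Fin n → ℂ | (x j).re < 0} ∩ {x : Fin n → ℂ | (x (j+1)).re < 0}))
        ∩ (⋂ j, ⋂ (_ : 2 ∈ B j), ({x : Fin n → ℂ | 0 ≤ (x j).re} ∩ {x : Fin n → ℂ | 0 ≤ (x (j+1)).re})) := by
    ext x
    simp only [Set.mem_ofPred_eq, Set.mem_inter_iff, Set.mem_iInter, Ad]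
  rw [e]
  refine MeasurableSet.inter ?_ ?_
  · exact MeasurableSet.iInter fun j => MeasurableSet.iInter fun _ => (h1 j).inter (h1 (j+1))
  · exact MeasurableSet.iInter fun j => MeasurableSet.iInter fun _ => (h2 j).inter (h2 (j+1))

/-- GI_BAD -/
theorem bad (hldm : LdmStatement) (hc : CmbStatement) (hm : MolStatement) (hg : GeoStatement)
    (hl : LciStatement) (hlen : LenStatement) : BadStatement := by
  intro α b e hα1 hα2 hb he heL
  have hα0 : 0 < α := lt_of_lt_of_le (by positivity) hα1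
  obtain ⟨R, hR, hRl⟩ := hl α b hα0 hα2 hb
  obtain ⟨δ0, hδ0, hgeo⟩ := hg α b (e / 2) hα1 hα2 hb (by linarith)
  obtain ⟨hLa, -, hLaz, hLzq, -, -⟩ := hlen α b hα1 hα2 hb
  have hLaq : La α b ≤ Lq α b := hLaz.trans hLzq
  set δ := δ0 / 2 with hδ
  have hδp : 0 < δ := by positivity
  set L := max (1 / R) (Lq α b) with hL
  obtain ⟨n0, hn0⟩ := exists_nat_ge (L ^ 2 / δ ^ 2)
  have hu : ∀ s, ‖uI α s‖ = 1 := norm_uI α
  refine ⟨n0, fun n _ hn => ?_⟩
  have hnR : L ^ 2 ≤ δ ^ 2 * n := by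
    have h1 : L ^ 2 / δ ^ 2 ≤ n := hn0.trans (by exact_mod_cast hn)
    rw [div_le_iff₀ (by positivity)] at h1
    linarith
  have hRL : 1 / R ≤ L := le_max_left _ _
  have hqL : Lq α b ≤ L := le_max_right _ _
  have hR1 : 0 < 1 / R := by positivity
  have hL0 : 0 < L := lt_of_lt_of_le hR1 hRL
  -- the three bounds
  obtain ⟨C1, p1, hC1, hb1⟩ := ms_bound hldm (uI α) (hI α b) hu n
    (fun _ B => Vis {0, 1, 2} ∅ B) δ (1 / R) R 0 (fun A => MeasurableSet.const _) hδp hR le_rfl hR1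
    (le_trans (by gcongr) hnR) (fun x A hV hC _ => (hRl n x A hV hC).2)
    (fun x A hV hC => (hRl n x A hV hC).1)
  obtain ⟨C2, p2, hC2, hb2⟩ := ms_bound hldm (uI α) (hI α b) hu n
    (fun x B => Vis {0, 1, 2} ∅ B ∧ ¬ (Ad x B ∧ Nl B)) δ (Lq α b - e / 2) R (Lq α b - e)
    (fun A => by
      refine MeasurableSet.inter (MeasurableSet.const _) (MeasurableSet.compl ?_)
      exact (meas_Ad A).inter (MeasurableSet.const _)) hδp hR (by linarith) (by linarith)
    (le_trans (by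
      have : Lq α b - e / 2 ≤ L := by linarith
      have h0 : 0 ≤ Lq α b - e / 2 := by linarith
      gcongr) hnR) (fun x A hV hC hS => (hgeo δ hδp (by linarith) n x A hV.1 hC hS).1 hV.2)
    (fun x A hV hC => (hRl n x A hV.1 hC).1)
  obtain ⟨C3, p3, hC3, hb3⟩ := ms_bound hldm (uI α) (hI α b) hu n
    (fun x B => Vis {0, 1, 2} ∅ B ∧ Db B) δ (La α b - e / 2) R (La α b - e)
    (fun A => MeasurableSet.const _) hδp hR (by linarith) (by linarith)
    (le_trans (by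
      have : La α b - e / 2 ≤ L := by linarith
      have h0 : 0 ≤ La α b - e / 2 := by linarith
      gcongr) hnR) (fun x A hV hC hS => (hgeo δ hδp (by linarith) n x A hV.1 hC hS).2 hV.2)
    (fun x A hV hC => (hRl n x A hV.1 hC).1)
  refine ⟨C1 + C2 + C3, p1 + p2 + p3, by positivity, fun t ht => ?_⟩
  have hn1 : (0 : ℝ) < n := by exact_mod_cast Nat.pos_of_ne_zero (NeZero.ne n)
  have hta : 0 < t / n := by positivity
  have hpow : ∀ q : ℕ, q ≤ p1 + p2 + p3 → (1 + t) ^ q ≤ (1 + t) ^ (p1 + p2 + p3) := fun q hq =>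
    pow_le_pow_right₀ (by linarith) hq
  refine ⟨?_, ?_, ?_⟩
  · refine le_trans (hm (uI α) (hI α b) hu n (t / n) hta _ (fun _ B => Vis {0, 1, 2} ∅ B)
      (fun _ => MeasurableSet.const _) (fun x A hR hS => (hc n A hR).2.2.2.1 hS)) ?_
    refine le_trans (hb1 t ht) (ENNReal.ofReal_le_ofReal ?_)
    have e0 : Real.exp (-((0 : ℝ) ^ 2 / (4 * t))) = 1 := by simp
    rw [e0, mul_one]
    have := hpow p1 (by omega)
    gcongr
    linarith
  · refine le_trans (hm (uI α) (hI α b) hu n (t / n) hta _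
      (fun x B => Vis {0, 1, 2} ∅ B ∧ ¬ (Ad x B ∧ Nl B))
      (fun B => MeasurableSet.inter (MeasurableSet.const _)
        (MeasurableSet.compl ((meas_Ad B).inter (MeasurableSet.const _))))
      (fun x A hR hS => ⟨(hc n A hR).2.2.2.1 hS.1, hS.2⟩)) ?_
    refine le_trans (hb2 t ht) (ENNReal.ofReal_le_ofReal ?_)
    have := hpow p2 (by omega)
    gcongr
    linarith
  · refine le_trans (hm (uI α) (hI α b) hu n (t / n) hta _
      (fun x B => Vis {0, 1, 2} ∅ B ∧ Db B) (fun _ => MeasurableSet.const _)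
      (fun x A hR hS => ⟨(hc n A hR).2.2.2.1 hS.1, (hc n A hR).2.2.2.2.1 hS.1 hS.2⟩)) ?_
    refine le_trans (hb3 t ht) (ENNReal.ofReal_le_ofReal ?_)
    have := hpow p3 (by omega)
    gcongr
    linarith

end Pool.Agent.XQ.GI.H20
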