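import Pool.Agent.Helper35_XQ.Stmt

/-!
Squad XQ (MP_5b0138_an), Part A2, module GI_MOL (helper20): comparison of the masses with words
with the masses with labels.
-/

set_option autoImplicit false

namespace Pool.Agent.XQ.GI.H20

open MeasureTheory Complex Filter Topology Pool.Agent.H62T Pool.Agent.H60K Pool.Agent.XQ.GI
open scoped ENNReal NNReal

/-- GI_MOL -/
theorem mol (ho : OrdStatement) : MolStatement := by
  classical
  intro u h hu n _ a ha S S' hS' hSS
  obtain ⟨hm, hk⟩ := ho u h hu
  have hKm : ∀ (A : Fin n → Lb), Measurable (fun x : Fin n → ℂ => wO u h a x A) := by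
    intro A
    unfold wO
    refine Finset.measurable_prod _ (fun j _ => ?_)
    have hg : Measurable (fun x : Fin n → ℂ => ((a, x j, x (j+1)) : ℝ × ℂ × ℂ)) := by fun_prop
    exact (hm (A j)).comp hg
  have h1 : ∀ (A : Fin n → Lb) (x : Fin n → ℂ),
      (if S x A then ENNReal.ofReal (wO u h a x A) else 0)
        ≤ (if S' x (fun j => vs (A j)) then ENNReal.ofReal (wO u h a x A) else 0) := by
    intro A x
    by_cases hR : ∀ j, Rz (A j)
    · by_cases h1 : S x A
      · rw [if_pos h1, if_pos (hSS x A hR h1)]
      · rw [if_neg h1]
        exact zero_le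
    · have h0 : wO u h a x A = 0 := by
        push Not at hR
        obtain ⟨j, hj⟩ := hR
        unfold wO
        apply Finset.prod_eq_zero (Finset.mem_univ j)
        by_contra hne
        exact hj ((hk a (x j) (x (j+1)) ha).2.2.1 (A j) hne)
      rw [h0]; simp
  have h2 : ∀ (B : Fin n → Finset (Fin 3)) (x : Fin n → ℂ),
      ENNReal.ofReal (wt u h (fun _ => a) x B)
        = ∑ A : Fin n → Lb, if (fun j => vs (A j)) = B then ENNReal.ofReal (wO u h a x A) else 0 := by
    intro B x
    have e1 : wt u h (fun _ => a) x B
        = ∑ A : Fin n → Lb, if (fun j => vs (A j)) = B then wO u h a x A else 0 := by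
      unfold wt
      have e2 : ∀ j, kA u h (B j) a (x j) (x (j+1))
          = ∑ f : Lb, if vs f = B j then KO u h f a (x j) (x (j+1)) else 0 :=
        fun j => (hk a (x j) (x (j+1)) ha).2.2.2.2.2 (B j)
      rw [Finset.prod_congr rfl (fun j _ => e2 j), Finset.prod_univ_sum, Fintype.piFinset_univ]
      refine Finset.sum_congr rfl (fun A _ => ?_)
      by_cases hA : (fun j => vs (A j)) = B
      · rw [if_pos hA]
        unfold wO
        refine Finset.prod_congr rfl (fun j _ => ?_)
        rw [if_pos (congrFun hA j)]
      · rw [if_neg hA]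
        have : ∃ j, vs (A j) ≠ B j := by
          by_contra hc
          push Not at hc
          exact hA (funext hc)
        obtain ⟨j, hj⟩ := this
        exact Finset.prod_eq_zero (Finset.mem_univ j) (if_neg hj)
    rw [e1, ENNReal.ofReal_sum_of_nonneg]
    · refine Finset.sum_congr rfl (fun A _ => ?_)
      split_ifs <;> simp
    · intro A _
      split_ifs
      · exact Finset.prod_nonneg (fun j _ => (hk a (x j) (x (j+1)) ha).2.1 (A j))
      · exact le_rfl
  have h3 : Ms u h (fun _ => a) S' = ∑ B : Fin n → Finset (Fin 3), ∑ A : Fin n → Lb,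
      ∫⁻ x, if S' x B ∧ (fun j => vs (A j)) = B then ENNReal.ofReal (wO u h a x A) else 0 := by
    unfold Ms
    refine Finset.sum_congr rfl (fun B _ => ?_)
    rw [← lintegral_finsetSum]
    · refine lintegral_congr (fun x => ?_)
      by_cases hS : S' x B
      · rw [if_pos hS, h2]
        refine Finset.sum_congr rfl (fun A _ => ?_)
        simp [hS]
      · rw [if_neg hS]
        symm
        apply Finset.sum_eq_zero
        intro A _
        simp [hS]
    · intro A _
      by_cases hA : (fun j => vs (A j)) = B
      · simp only [hA, and_true]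
        exact Measurable.ite (hS' B) (hKm A).ennreal_ofReal measurable_const
      · simp only [hA, and_false, if_false]
        exact measurable_const
  rw [h3, Finset.sum_comm]
  unfold MO
  refine Finset.sum_le_sum (fun A _ => ?_)
  refine le_trans ?_ (Finset.single_le_sum (f := fun B : Fin n → Finset (Fin 3) =>
    ∫⁻ x, if S' x B ∧ (fun j => vs (A j)) = B then ENNReal.ofReal (wO u h a x A) else 0)
    (fun _ _ => zero_le) (Finset.mem_univ (fun j => vs (A j))))
  refine lintegral_mono (fun x => ?_)
  refine le_trans (h1 A x) ?_
  simp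

end Pool.Agent.XQ.GI.H20
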